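import Pool.Agent.Y112.NF.Orth

/-!
# Smooth dg categories with non Schur-finite motive over every field

Let `k` be any field, of any characteristic (for example a finite field).  There is a smooth dg
category `A` over `k` (a finite semi-free dg algebra with five generators of degree `0` and eleven
generators of degree `-1`) whose image under every Morita invariant with values in a `ℚ`-linear
symmetric monoidal category which sends `k` to the (non zero) unit is not Schur-finite.  The
motive functor `U(-)_ℚ` with values in `NMot(k)_ℚ` is such an invariant.  So the answer to
question Q1 is negative over each perfect field, of each characteristic `p ≥ 0`.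

The generators of degree `0` are `S, T, a, b, p`; with `s = bS - Sb`, `t = Ta - aT` and
`π = 1 - ab - st`, the differentials of the generators of degree `-1` are
`pp - p, pa - ap, pb - bp, bT - Tb, aS - Sa, aπ, bπ, bs, T - Tab, aT - aTba, πb`.

The functor `U` is defined on any full subcategory of the category of small dg categories, given
by a property `S` of dg categories which is invariant under Morita equivalences and holds for
`A`, for `k` and for the empty dg category: for example on all small dg categories, or on the
smooth ones.
-/

set_option autoImplicit false

open CategoryTheory MonoidalCategory Limits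

namespace Pool.Agent.Results.MP_b5fdc6_ag.EveryField

open Pool.Agent.TH137.NC
open Pool.Agent.TH137.DG (IsSchurFinite)

universe v u

/-- For each field `k` there is a smooth dg category `A` over `k` such that `U A` is not
Schur-finite, for every functor `U` from small dg categories (or from a full subcategory `S` which
is closed under Morita equivalences and contains `A`, `k` and the empty dg category) to a
`ℚ`-linear symmetric monoidal category `C` with non zero unit which inverts Morita
equivalences, sends the empty dg category to a zero object and sends `k` to the unit. -/
theorem result (k : Type) [Field k] :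
    ∃ A : DGCat.{0, 0} k, IsSmooth A ∧
      ∀ (S : ObjectProperty (DGCat.{0, 0} k)) (hA : S A) (hk : S (DGCat.base k))
        (h0 : S (DGCat.empty k)),
        (∀ (B B' : DGCat.{0, 0} k) (F : B ⟶ B'), IsMorita F → (S B ↔ S B')) →
        ∀ (C : Type u) [Category.{v} C] [MonoidalCategory C] [SymmetricCategory C]
          [Preadditive C] [Linear ℚ C] [MonoidalPreadditive C] (U : S.FullSubcategory ⥤ C),
          (∀ (B B' : S.FullSubcategory) (F : B ⟶ B'), IsMorita F.hom → IsIso (U.map F)) →
          IsZero (U.obj ⟨DGCat.empty k, h0⟩) →
          Nonempty (U.obj ⟨DGCat.base k, hk⟩ ≅ 𝟙_ C) →
          ¬ IsZero (𝟙_ C) →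
          ¬ IsSchurFinite (U.obj ⟨A, hA⟩) :=
  ⟨Pool.Agent.TH137.cA (Pool.Agent.Y112.NF.XA k).toCat, Pool.Agent.Y112.NF.XA_smooth k,
    fun S hA hk h0 hM _ _ _ _ _ _ _ U hU hZ h1 hne =>
      Pool.Agent.Y112.NF.nnot_schur k S hM hA hk h0 U hU hZ h1 hne⟩

end Pool.Agent.Results.MP_b5fdc6_ag.EveryField
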